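import Pool.Agent.Lib.MP_29a61e_co.Check

/-!
# MP_29a61e_co: certificate for the weights 3, 5 and the cost 8: the states of the parts
-/

set_option autoImplicit false

namespace Pool.Agent.Lib.MP29a61e.C

/-- state of part 0 -/
def s0 : St :=
  ⟨[(0, 2), (3, 1), (5, 1), (4, 7), (6, 0)],
    [(0, 0, 0), (0, 0, 0), (1, 4, 0), (1, 0, 0), (1, 2, 0), (1, 6, 0), (2, 5, 0), (1, 0, 0)]⟩

/-- state of part 1 -/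
def s1 : St :=
  ⟨[(0, 2), (3, 7), (1, 1), (5, 1), (4, 6), (8, 8), (1, 0)],
    [(0, 0, 0), (0, 0, 0), (1, 4, 0), (1, 7, 0), (1, 2, 0), (1, 6, 0), (1, 5, 0), (1, 3, 0),
    (2, 0, 0)]⟩

/-- state of part 2 -/
def s2 : St :=
  ⟨[(0, 2), (3, 7), (1, 1), (5, 1), (4, 6), (1, 0)],
    [(0, 0, 0), (0, 0, 0), (1, 4, 0), (1, 7, 0), (1, 2, 0), (1, 6, 0), (1, 5, 0), (1, 3, 0)]⟩

/-- state of part 3 -/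
def s3 : St :=
  ⟨[(0, 2), (3, 7), (5, 1), (4, 6), (1, 0)],
    [(0, 0, 0), (0, 0, 0), (1, 4, 0), (1, 7, 0), (1, 2, 0), (1, 6, 0), (1, 5, 0), (1, 3, 0)]⟩

/-- state of part 4 -/
def s4 : St :=
  ⟨[(0, 2), (3, 5), (1, 1), (4, 7), (6, 0)],
    [(0, 0, 0), (0, 0, 0), (1, 4, 0), (1, 0, 0), (1, 2, 0), (1, 6, 0), (1, 5, 0), (1, 0, 0)]⟩

/-- state of part 5 -/
def s5 : St :=
  ⟨[(0, 2), (3, 5), (7, 9), (11, 1), (4, 10), (1, 12), (8, 8), (6, 0)],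
    [(0, 0, 0), (0, 0, 0), (1, 4, 0), (1, 9, 0), (1, 2, 0), (1, 6, 0), (2, 5, 0), (1, 0, 0),
    (2, 10, 0), (1, 3, 0), (2, 8, 0), (1, 0, 0), (1, 0, 0)]⟩

/-- state of part 6 -/
def s6 : St :=
  ⟨[(0, 2), (3, 5), (7, 1), (4, 8), (6, 0)],
    [(0, 0, 0), (0, 0, 0), (1, 4, 0), (1, 0, 0), (1, 2, 0), (1, 6, 0), (2, 5, 0), (1, 0, 0),
    (2, 0, 0)]⟩

/-- state of part 7 -/
def s7 : St :=
  ⟨[(0, 2), (3, 5), (1, 1), (7, 1), (4, 6), (1, 0)],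
    [(0, 0, 0), (0, 0, 0), (1, 4, 0), (1, 7, 0), (1, 2, 0), (1, 6, 0), (1, 5, 0), (1, 3, 0)]⟩

/-- state of part 8 -/
def s8 : St :=
  ⟨[(0, 2), (3, 1), (5, 1), (4, 1), (6, 0)],
    [(0, 0, 0), (0, 0, 0), (1, 4, 0), (1, 0, 0), (1, 2, 0), (2, 6, 0), (2, 5, 0)]⟩

/-- state of part 9 -/
def s9 : St :=
  ⟨[(0, 2), (3, 1), (5, 1), (4, 1), (6, 0)],
    [(0, 0, 0), (0, 0, 0), (1, 4, 0), (1, 0, 0), (1, 2, 0), (1, 6, 0), (1, 5, 0)]⟩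

/-- state of part 10 -/
def s10 : St :=
  ⟨[(0, 2), (3, 5), (1, 1), (4, 1), (6, 0)],
    [(0, 0, 0), (0, 0, 0), (1, 4, 0), (1, 0, 0), (1, 2, 0), (1, 6, 0), (1, 5, 0)]⟩

/-- state of part 11 -/
def s11 : St :=
  ⟨[(0, 2), (3, 5), (1, 1), (4, 1), (6, 0)],
    [(0, 0, 0), (0, 0, 0), (1, 4, 0), (1, 0, 0), (1, 2, 0), (1, 6, 0), (2, 5, 0)]⟩

/-- state of part 12 -/
def s12 : St :=
  ⟨[(0, 2), (3, 1), (5, 1), (4, 6), (1, 0)],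
    [(0, 0, 0), (0, 0, 0), (1, 4, 0), (1, 0, 0), (1, 2, 0), (1, 6, 0), (1, 5, 0)]⟩

/-- state of part 13 -/
def s13 : St :=
  ⟨[(0, 2), (3, 5), (1, 1), (4, 6), (1, 0)],
    [(0, 0, 0), (0, 0, 0), (1, 4, 0), (1, 0, 0), (1, 2, 0), (1, 6, 0), (1, 5, 0)]⟩

/-- state of part 14 -/
def s14 : St :=
  ⟨[(0, 2), (3, 8), (6, 5), (1, 7), (4, 4), (1, 0)],
    [(0, 0, 0), (0, 0, 0), (1, 4, 0), (1, 5, 0), (2, 2, 0), (1, 3, 0), (1, 7, 0), (1, 6, 0),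
    (2, 0, 0)]⟩

/-- state of part 15 -/
def s15 : St :=
  ⟨[(0, 2), (3, 1), (6, 5), (1, 7), (1, 1), (4, 4), (1, 0)],
    [(0, 0, 0), (0, 0, 0), (1, 4, 0), (1, 5, 0), (2, 2, 0), (1, 3, 0), (1, 7, 0), (1, 6, 0)]⟩

/-- state of part 16 -/
def s16 : St :=
  ⟨[(0, 2), (3, 1), (6, 5), (1, 1), (7, 1), (4, 4), (1, 0)],
    [(0, 0, 0), (0, 0, 0), (1, 4, 0), (1, 5, 0), (2, 2, 0), (1, 3, 0), (2, 7, 0), (2, 6, 0)]⟩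

/-- state of part 17 -/
def s17 : St :=
  ⟨[(0, 2), (3, 6), (1, 5), (1, 1), (4, 4), (1, 0)],
    [(0, 0, 0), (0, 0, 0), (1, 4, 0), (1, 5, 0), (2, 2, 6), (1, 3, 0), (1, 4, 0)]⟩

/-- state of part 18 -/
def s18 : St :=
  ⟨[(0, 2), (3, 5), (1, 1), (4, 0)],
    [(0, 0, 0), (0, 0, 0), (1, 4, 0), (1, 5, 0), (2, 2, 0), (1, 3, 0)]⟩

/-- state of part 19 -/
def s19 : St :=
  ⟨[(0, 2), (3, 1), (6, 5), (1, 7), (1, 4), (1, 0)],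
    [(0, 0, 0), (0, 0, 0), (1, 4, 0), (1, 5, 0), (1, 2, 0), (1, 3, 0), (1, 7, 0), (1, 6, 0)]⟩

/-- state of part 20 -/
def s20 : St :=
  ⟨[(0, 2), (3, 1), (6, 5), (1, 4), (1, 7), (1, 0)],
    [(0, 0, 0), (0, 0, 0), (1, 4, 0), (1, 5, 0), (1, 2, 0), (1, 3, 0), (1, 7, 0), (1, 6, 0)]⟩

/-- state of part 21 -/
def s21 : St :=
  ⟨[(0, 2), (3, 4), (6, 6), (1, 7), (5, 0)],
    [(0, 0, 0), (0, 0, 0), (1, 4, 0), (1, 5, 0), (1, 2, 0), (2, 3, 0), (2, 0, 0), (1, 0, 0)]⟩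

/-- state of part 22 -/
def s22 : St :=
  ⟨[(0, 2), (3, 4), (7, 5), (6, 8), (9, 9), (1, 1), (11, 1), (10, 0)],
    [(0, 0, 0), (0, 0, 0), (1, 4, 0), (1, 5, 0), (1, 2, 0), (1, 3, 0), (1, 0, 0), (1, 8, 0),
    (1, 7, 0), (2, 10, 11), (2, 9, 0), (2, 9, 0)]⟩

/-- state of part 23 -/
def s23 : St :=
  ⟨[(0, 2), (3, 4), (7, 5), (6, 8), (9, 9), (1, 1), (10, 0)],
    [(0, 0, 0), (0, 0, 0), (1, 4, 0), (1, 5, 0), (1, 2, 0), (1, 3, 0), (1, 0, 0), (1, 8, 0),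
    (1, 7, 0), (2, 10, 0), (2, 9, 0)]⟩

/-- state of part 24 -/
def s24 : St :=
  ⟨[(0, 2), (3, 4), (7, 5), (6, 8), (9, 0)],
    [(0, 0, 0), (0, 0, 0), (1, 4, 0), (1, 5, 0), (1, 2, 0), (1, 3, 0), (1, 0, 0), (1, 8, 0),
    (1, 7, 0), (1, 0, 0)]⟩

/-- state of part 25 -/
def s25 : St :=
  ⟨[(0, 2), (3, 4), (7, 5), (6, 0)],
    [(0, 0, 0), (0, 0, 0), (1, 4, 0), (1, 5, 0), (1, 2, 0), (1, 3, 0), (1, 0, 0), (2, 0, 0)]⟩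

/-- state of part 26 -/
def s26 : St :=
  ⟨[(0, 2), (3, 4), (1, 5), (6, 6), (8, 1), (9, 1), (7, 0)],
    [(0, 0, 0), (0, 0, 0), (1, 4, 0), (1, 5, 0), (1, 2, 0), (1, 3, 0), (2, 7, 9), (2, 6, 0),
    (1, 0, 0), (2, 6, 0)]⟩

/-- state of part 27 -/
def s27 : St :=
  ⟨[(0, 2), (3, 4), (1, 5), (6, 7), (1, 0)],
    [(0, 0, 0), (0, 0, 0), (1, 4, 0), (1, 5, 0), (1, 2, 0), (1, 3, 0), (2, 7, 0), (1, 6, 0)]⟩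

/-- state of part 28 -/
def s28 : St :=
  ⟨[(0, 2), (3, 4), (1, 5), (6, 1), (7, 0)],
    [(0, 0, 0), (0, 0, 0), (1, 4, 0), (1, 5, 0), (1, 2, 0), (1, 3, 0), (2, 7, 0), (2, 6, 0)]⟩

/-- state of part 29 -/
def s29 : St :=
  ⟨[(0, 2), (3, 4), (1, 5), (6, 0)],
    [(0, 0, 0), (0, 0, 0), (1, 4, 0), (1, 5, 0), (1, 2, 0), (1, 3, 0), (1, 0, 0)]⟩

/-- state of part 30 -/
def s30 : St :=
  ⟨[(0, 2), (3, 4), (1, 5), (1, 0)],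
    [(0, 0, 0), (0, 0, 0), (1, 4, 0), (1, 5, 0), (1, 2, 0), (1, 3, 0)]⟩

/-- state of part 31 -/
def s31 : St :=
  ⟨[(0, 2), (3, 4), (1, 1), (5, 0)],
    [(0, 0, 0), (0, 0, 0), (1, 4, 0), (1, 5, 0), (1, 2, 0), (1, 3, 0)]⟩

/-- state of part 32 -/
def s32 : St :=
  ⟨[(0, 2), (3, 1), (4, 0)],
    [(0, 0, 0), (0, 0, 0), (1, 4, 0), (1, 0, 0), (1, 2, 0)]⟩

/-- state of part 33 -/
def s33 : St :=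
  ⟨[(0, 2), (3, 3), (1, 6), (1, 1), (4, 1), (5, 1), (7, 0)],
    [(0, 0, 0), (0, 0, 0), (1, 5, 0), (2, 4, 0), (1, 3, 0), (1, 2, 0), (1, 7, 0), (2, 6, 0)]⟩

/-- state of part 34 -/
def s34 : St :=
  ⟨[(0, 2), (3, 3), (1, 6), (1, 1), (4, 1), (5, 1), (7, 0)],
    [(0, 0, 0), (0, 0, 0), (1, 5, 0), (2, 4, 0), (1, 3, 0), (1, 2, 0), (1, 7, 0), (1, 6, 0)]⟩

/-- state of part 35 -/
def s35 : St :=
  ⟨[(0, 2), (3, 3), (1, 6), (1, 1), (4, 1), (5, 7), (1, 0)],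
    [(0, 0, 0), (0, 0, 0), (1, 5, 0), (2, 4, 0), (1, 3, 0), (1, 2, 0), (1, 7, 0), (1, 6, 0)]⟩

/-- state of part 36 -/
def s36 : St :=
  ⟨[(0, 2), (3, 1), (4, 1), (5, 0)],
    [(0, 0, 0), (0, 0, 0), (1, 5, 0), (2, 4, 0), (1, 3, 0), (1, 2, 0)]⟩

/-- state of part 37 -/
def s37 : St :=
  ⟨[(0, 2), (3, 3), (6, 11), (5, 1), (4, 1), (8, 1), (7, 9), (10, 0)],
    [(0, 0, 0), (0, 0, 0), (1, 7, 0), (2, 4, 5), (2, 3, 0), (2, 3, 0), (1, 0, 0), (1, 2, 0),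
    (1, 9, 0), (1, 8, 0), (2, 0, 0), (1, 0, 0)]⟩

/-- state of part 38 -/
def s38 : St :=
  ⟨[(0, 2), (3, 3), (6, 1), (8, 1), (5, 1), (4, 1), (7, 9), (1, 0)],
    [(0, 0, 0), (0, 0, 0), (1, 7, 0), (2, 4, 5), (2, 3, 0), (2, 3, 0), (1, 0, 0), (1, 2, 0),
    (1, 9, 0), (2, 8, 0)]⟩

/-- state of part 39 -/
def s39 : St :=
  ⟨[(0, 2), (3, 3), (6, 1), (5, 1), (8, 1), (4, 1), (7, 9), (1, 0)],
    [(0, 0, 0), (0, 0, 0), (1, 7, 0), (2, 4, 5), (2, 3, 0), (2, 3, 0), (1, 0, 0), (1, 2, 0),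
    (1, 9, 0), (2, 8, 0)]⟩

/-- state of part 40 -/
def s40 : St :=
  ⟨[(0, 2), (3, 3), (6, 1), (5, 1), (4, 1), (8, 1), (7, 9), (1, 0)],
    [(0, 0, 0), (0, 0, 0), (1, 7, 0), (2, 4, 5), (2, 3, 0), (2, 3, 0), (1, 0, 0), (1, 2, 0),
    (1, 9, 0), (1, 8, 0)]⟩

/-- state of part 41 -/
def s41 : St :=
  ⟨[(0, 2), (3, 3), (6, 1), (5, 1), (4, 1), (7, 8), (1, 0)],
    [(0, 0, 0), (0, 0, 0), (1, 7, 0), (2, 4, 5), (2, 3, 0), (2, 3, 8), (1, 0, 0), (1, 2, 0),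
    (2, 5, 0)]⟩

/-- state of part 42 -/
def s42 : St :=
  ⟨[(0, 2), (3, 3), (6, 8), (1, 1), (5, 1), (4, 1), (7, 1), (9, 0)],
    [(0, 0, 0), (0, 0, 0), (1, 7, 0), (2, 4, 5), (2, 3, 0), (2, 3, 0), (1, 0, 0), (1, 2, 0),
    (1, 9, 0), (1, 8, 0)]⟩

/-- state of part 43 -/
def s43 : St :=
  ⟨[(0, 2), (3, 3), (6, 1), (5, 1), (4, 1), (8, 1), (7, 9), (1, 0)],
    [(0, 0, 0), (0, 0, 0), (1, 7, 0), (2, 4, 5), (2, 3, 0), (2, 3, 0), (1, 0, 0), (1, 2, 0),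
    (1, 9, 0), (2, 8, 0)]⟩

/-- state of part 44 -/
def s44 : St :=
  ⟨[(0, 2), (3, 3), (6, 1), (5, 1), (4, 8), (1, 1), (7, 9), (1, 0)],
    [(0, 0, 0), (0, 0, 0), (1, 7, 0), (2, 4, 5), (2, 3, 0), (2, 3, 0), (1, 0, 0), (1, 2, 0),
    (2, 9, 0), (2, 8, 0)]⟩

/-- state of part 45 -/
def s45 : St :=
  ⟨[(0, 2), (3, 3), (6, 1), (5, 8), (1, 1), (4, 1), (7, 9), (1, 0)],
    [(0, 0, 0), (0, 0, 0), (1, 7, 0), (2, 4, 5), (2, 3, 0), (2, 3, 0), (1, 0, 0), (1, 2, 0),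
    (2, 9, 0), (2, 8, 0)]⟩

/-- state of part 46 -/
def s46 : St :=
  ⟨[(0, 2), (3, 3), (6, 8), (1, 1), (5, 1), (4, 1), (7, 9), (1, 0)],
    [(0, 0, 0), (0, 0, 0), (1, 7, 0), (2, 4, 5), (2, 3, 0), (2, 3, 0), (1, 0, 0), (1, 2, 0),
    (2, 9, 0), (2, 8, 0)]⟩

/-- state of part 47 -/
def s47 : St :=
  ⟨[(0, 2), (3, 3), (6, 1), (5, 1), (4, 8), (1, 1), (7, 9), (1, 0)],
    [(0, 0, 0), (0, 0, 0), (1, 7, 0), (2, 4, 5), (2, 3, 0), (2, 3, 0), (1, 0, 0), (1, 2, 0),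
    (1, 9, 0), (2, 8, 0)]⟩

/-- state of part 48 -/
def s48 : St :=
  ⟨[(0, 2), (3, 3), (6, 1), (5, 1), (4, 8), (1, 1), (7, 9), (1, 0)],
    [(0, 0, 0), (0, 0, 0), (1, 7, 0), (2, 4, 5), (2, 3, 0), (2, 3, 0), (1, 0, 0), (1, 2, 0),
    (2, 9, 0), (1, 8, 0)]⟩

/-- state of part 49 -/
def s49 : St :=
  ⟨[(0, 2), (3, 3), (6, 1), (5, 8), (1, 1), (4, 1), (7, 9), (1, 0)],
    [(0, 0, 0), (0, 0, 0), (1, 7, 0), (2, 4, 5), (2, 3, 0), (2, 3, 0), (1, 0, 0), (1, 2, 0),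
    (2, 9, 0), (1, 8, 0)]⟩

/-- state of part 50 -/
def s50 : St :=
  ⟨[(0, 2), (3, 3), (6, 8), (1, 1), (5, 1), (4, 1), (7, 9), (1, 0)],
    [(0, 0, 0), (0, 0, 0), (1, 7, 0), (2, 4, 5), (2, 3, 0), (2, 3, 0), (1, 0, 0), (1, 2, 0),
    (2, 9, 0), (1, 8, 0)]⟩

/-- state of part 51 -/
def s51 : St :=
  ⟨[(0, 2), (3, 3), (6, 1), (5, 1), (4, 8), (1, 1), (7, 1), (9, 0)],
    [(0, 0, 0), (0, 0, 0), (1, 7, 0), (2, 4, 5), (2, 3, 0), (2, 3, 0), (1, 0, 0), (1, 2, 0),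
    (2, 9, 0), (1, 8, 0)]⟩

/-- state of part 52 -/
def s52 : St :=
  ⟨[(0, 2), (3, 3), (6, 1), (5, 8), (1, 1), (4, 1), (7, 1), (9, 0)],
    [(0, 0, 0), (0, 0, 0), (1, 7, 0), (2, 4, 5), (2, 3, 0), (2, 3, 0), (1, 0, 0), (1, 2, 0),
    (2, 9, 0), (1, 8, 0)]⟩

/-- state of part 53 -/
def s53 : St :=
  ⟨[(0, 2), (3, 3), (6, 8), (1, 1), (5, 1), (4, 1), (7, 1), (9, 0)],
    [(0, 0, 0), (0, 0, 0), (1, 7, 0), (2, 4, 5), (2, 3, 0), (2, 3, 0), (1, 0, 0), (1, 2, 0),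
    (2, 9, 0), (1, 8, 0)]⟩

/-- state of part 54 -/
def s54 : St :=
  ⟨[(0, 2), (3, 3), (6, 1), (5, 1), (4, 1), (7, 0)],
    [(0, 0, 0), (0, 0, 0), (1, 7, 0), (2, 4, 5), (2, 3, 0), (2, 3, 0), (1, 0, 0), (1, 2, 0)]⟩

/-- state of part 55 -/
def s55 : St :=
  ⟨[(0, 2), (3, 3), (6, 11), (4, 1), (5, 1), (8, 1), (7, 9), (10, 0)],
    [(0, 0, 0), (0, 0, 0), (1, 7, 0), (2, 4, 5), (2, 3, 0), (2, 3, 0), (1, 0, 0), (1, 2, 0),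
    (1, 9, 0), (1, 8, 0), (2, 0, 0), (1, 0, 0)]⟩

/-- state of part 56 -/
def s56 : St :=
  ⟨[(0, 2), (3, 3), (6, 1), (8, 1), (4, 1), (5, 1), (7, 9), (1, 0)],
    [(0, 0, 0), (0, 0, 0), (1, 7, 0), (2, 4, 5), (2, 3, 0), (2, 3, 0), (1, 0, 0), (1, 2, 0),
    (1, 9, 0), (2, 8, 0)]⟩

/-- state of part 57 -/
def s57 : St :=
  ⟨[(0, 2), (3, 3), (6, 1), (4, 1), (8, 1), (5, 1), (7, 9), (1, 0)],
    [(0, 0, 0), (0, 0, 0), (1, 7, 0), (2, 4, 5), (2, 3, 0), (2, 3, 0), (1, 0, 0), (1, 2, 0),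
    (1, 9, 0), (2, 8, 0)]⟩

/-- state of part 58 -/
def s58 : St :=
  ⟨[(0, 2), (3, 3), (6, 1), (4, 1), (5, 1), (8, 1), (7, 9), (1, 0)],
    [(0, 0, 0), (0, 0, 0), (1, 7, 0), (2, 4, 5), (2, 3, 0), (2, 3, 0), (1, 0, 0), (1, 2, 0),
    (1, 9, 0), (1, 8, 0)]⟩

/-- state of part 59 -/
def s59 : St :=
  ⟨[(0, 2), (3, 3), (6, 1), (4, 1), (5, 1), (7, 8), (1, 0)],
    [(0, 0, 0), (0, 0, 0), (1, 7, 0), (2, 4, 5), (2, 3, 8), (2, 3, 0), (1, 0, 0), (1, 2, 0),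
    (2, 4, 0)]⟩

/-- state of part 60 -/
def s60 : St :=
  ⟨[(0, 2), (3, 3), (6, 8), (1, 1), (4, 1), (5, 1), (7, 1), (9, 0)],
    [(0, 0, 0), (0, 0, 0), (1, 7, 0), (2, 4, 5), (2, 3, 0), (2, 3, 0), (1, 0, 0), (1, 2, 0),
    (1, 9, 0), (1, 8, 0)]⟩

/-- state of part 61 -/
def s61 : St :=
  ⟨[(0, 2), (3, 3), (6, 1), (4, 1), (5, 1), (8, 1), (7, 9), (1, 0)],
    [(0, 0, 0), (0, 0, 0), (1, 7, 0), (2, 4, 5), (2, 3, 0), (2, 3, 0), (1, 0, 0), (1, 2, 0),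
    (1, 9, 0), (2, 8, 0)]⟩

/-- state of part 62 -/
def s62 : St :=
  ⟨[(0, 2), (3, 3), (6, 1), (4, 1), (5, 8), (1, 1), (7, 9), (1, 0)],
    [(0, 0, 0), (0, 0, 0), (1, 7, 0), (2, 4, 5), (2, 3, 0), (2, 3, 0), (1, 0, 0), (1, 2, 0),
    (2, 9, 0), (2, 8, 0)]⟩

/-- state of part 63 -/
def s63 : St :=
  ⟨[(0, 2), (3, 3), (6, 1), (4, 8), (1, 1), (5, 1), (7, 9), (1, 0)],
    [(0, 0, 0), (0, 0, 0), (1, 7, 0), (2, 4, 5), (2, 3, 0), (2, 3, 0), (1, 0, 0), (1, 2, 0),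
    (2, 9, 0), (2, 8, 0)]⟩

/-- state of part 64 -/
def s64 : St :=
  ⟨[(0, 2), (3, 3), (6, 8), (1, 1), (4, 1), (5, 1), (7, 9), (1, 0)],
    [(0, 0, 0), (0, 0, 0), (1, 7, 0), (2, 4, 5), (2, 3, 0), (2, 3, 0), (1, 0, 0), (1, 2, 0),
    (2, 9, 0), (2, 8, 0)]⟩

/-- state of part 65 -/
def s65 : St :=
  ⟨[(0, 2), (3, 3), (6, 1), (4, 1), (5, 8), (1, 1), (7, 9), (1, 0)],
    [(0, 0, 0), (0, 0, 0), (1, 7, 0), (2, 4, 5), (2, 3, 0), (2, 3, 0), (1, 0, 0), (1, 2, 0),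
    (1, 9, 0), (2, 8, 0)]⟩

/-- state of part 66 -/
def s66 : St :=
  ⟨[(0, 2), (3, 3), (6, 1), (4, 1), (5, 8), (1, 1), (7, 9), (1, 0)],
    [(0, 0, 0), (0, 0, 0), (1, 7, 0), (2, 4, 5), (2, 3, 0), (2, 3, 0), (1, 0, 0), (1, 2, 0),
    (2, 9, 0), (1, 8, 0)]⟩

/-- state of part 67 -/
def s67 : St :=
  ⟨[(0, 2), (3, 3), (6, 1), (4, 8), (1, 1), (5, 1), (7, 9), (1, 0)],
    [(0, 0, 0), (0, 0, 0), (1, 7, 0), (2, 4, 5), (2, 3, 0), (2, 3, 0), (1, 0, 0), (1, 2, 0),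
    (2, 9, 0), (1, 8, 0)]⟩

/-- state of part 68 -/
def s68 : St :=
  ⟨[(0, 2), (3, 3), (6, 8), (1, 1), (4, 1), (5, 1), (7, 9), (1, 0)],
    [(0, 0, 0), (0, 0, 0), (1, 7, 0), (2, 4, 5), (2, 3, 0), (2, 3, 0), (1, 0, 0), (1, 2, 0),
    (2, 9, 0), (1, 8, 0)]⟩

/-- state of part 69 -/
def s69 : St :=
  ⟨[(0, 2), (3, 3), (6, 1), (4, 1), (5, 8), (1, 1), (7, 1), (9, 0)],
    [(0, 0, 0), (0, 0, 0), (1, 7, 0), (2, 4, 5), (2, 3, 0), (2, 3, 0), (1, 0, 0), (1, 2, 0),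
    (2, 9, 0), (1, 8, 0)]⟩

/-- state of part 70 -/
def s70 : St :=
  ⟨[(0, 2), (3, 3), (6, 1), (4, 8), (1, 1), (5, 1), (7, 1), (9, 0)],
    [(0, 0, 0), (0, 0, 0), (1, 7, 0), (2, 4, 5), (2, 3, 0), (2, 3, 0), (1, 0, 0), (1, 2, 0),
    (2, 9, 0), (1, 8, 0)]⟩

/-- state of part 71 -/
def s71 : St :=
  ⟨[(0, 2), (3, 3), (6, 8), (1, 1), (4, 1), (5, 1), (7, 1), (9, 0)],
    [(0, 0, 0), (0, 0, 0), (1, 7, 0), (2, 4, 5), (2, 3, 0), (2, 3, 0), (1, 0, 0), (1, 2, 0),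
    (2, 9, 0), (1, 8, 0)]⟩

/-- state of part 72 -/
def s72 : St :=
  ⟨[(0, 2), (3, 3), (6, 1), (4, 1), (5, 1), (7, 0)],
    [(0, 0, 0), (0, 0, 0), (1, 7, 0), (2, 4, 5), (2, 3, 0), (2, 3, 0), (1, 0, 0), (1, 2, 0)]⟩

/-- state of part 73 -/
def s73 : St :=
  ⟨[(0, 2), (3, 3), (1, 1), (5, 1), (4, 0)],
    [(0, 0, 0), (0, 0, 0), (1, 0, 0), (2, 4, 5), (2, 3, 0), (2, 3, 0)]⟩

/-- state of part 74 -/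
def s74 : St :=
  ⟨[(0, 2), (3, 3), (1, 1), (4, 1), (5, 0)],
    [(0, 0, 0), (0, 0, 0), (1, 0, 0), (2, 4, 5), (2, 3, 0), (2, 3, 0)]⟩

/-- state of part 75 -/
def s75 : St :=
  ⟨[(0, 2), (3, 3), (6, 8), (1, 7), (1, 1), (5, 4), (1, 9), (1, 0)],
    [(0, 0, 0), (0, 0, 0), (1, 0, 0), (2, 4, 5), (1, 3, 0), (1, 3, 0), (1, 7, 0), (1, 6, 0),
    (2, 9, 0), (2, 8, 0)]⟩

/-- state of part 76 -/
def s76 : St :=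
  ⟨[(0, 2), (3, 3), (6, 8), (1, 7), (1, 9), (1, 1), (5, 4), (1, 0)],
    [(0, 0, 0), (0, 0, 0), (1, 0, 0), (2, 4, 5), (1, 3, 0), (1, 3, 0), (1, 7, 0), (1, 6, 0),
    (2, 9, 0), (2, 8, 0)]⟩

/-- state of part 77 -/
def s77 : St :=
  ⟨[(0, 2), (3, 3), (6, 1), (8, 7), (1, 9), (1, 1), (5, 4), (1, 0)],
    [(0, 0, 0), (0, 0, 0), (1, 0, 0), (2, 4, 5), (1, 3, 0), (1, 3, 0), (1, 7, 0), (1, 6, 0),
    (1, 9, 0), (1, 8, 0)]⟩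

/-- state of part 78 -/
def s78 : St :=
  ⟨[(0, 2), (3, 3), (6, 7), (1, 1), (5, 4), (1, 0)],
    [(0, 0, 0), (0, 0, 0), (1, 0, 0), (2, 4, 5), (1, 3, 0), (1, 3, 0), (1, 7, 0), (1, 6, 0)]⟩

/-- state of part 79 -/
def s79 : St :=
  ⟨[(0, 2), (3, 3), (6, 5), (8, 4), (1, 1), (7, 0)],
    [(0, 0, 0), (0, 0, 0), (1, 0, 0), (2, 4, 5), (1, 3, 0), (1, 3, 0), (1, 7, 0), (2, 6, 0),
    (2, 0, 0)]⟩

/-- state of part 80 -/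
def s80 : St :=
  ⟨[(0, 2), (3, 3), (6, 5), (8, 4), (10, 7), (11, 9), (13, 12), (1, 0)],
    [(0, 0, 0), (0, 0, 0), (1, 0, 0), (2, 4, 5), (1, 3, 0), (1, 3, 0), (1, 7, 0), (1, 6, 0),
    (1, 9, 0), (1, 8, 0), (1, 0, 0), (1, 12, 0), (1, 11, 0), (1, 0, 0)]⟩

/-- state of part 81 -/
def s81 : St :=
  ⟨[(0, 2), (3, 3), (6, 5), (8, 4), (10, 7), (11, 9), (1, 0)],
    [(0, 0, 0), (0, 0, 0), (1, 0, 0), (2, 4, 5), (1, 3, 0), (1, 3, 0), (1, 7, 0), (1, 6, 0),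
    (1, 9, 0), (1, 8, 0), (1, 0, 0), (2, 0, 0)]⟩

/-- state of part 82 -/
def s82 : St :=
  ⟨[(0, 2), (3, 3), (6, 5), (8, 4), (1, 7), (1, 0)],
    [(0, 0, 0), (0, 0, 0), (1, 0, 0), (2, 4, 5), (1, 3, 0), (1, 3, 0), (1, 7, 0), (1, 6, 0),
    (1, 0, 0)]⟩

/-- state of part 83 -/
def s83 : St :=
  ⟨[(0, 2), (3, 3), (6, 5), (1, 4), (1, 7), (1, 0)],
    [(0, 0, 0), (0, 0, 0), (1, 0, 0), (2, 4, 5), (1, 3, 0), (1, 3, 0), (1, 7, 0), (1, 6, 0)]⟩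

/-- state of part 84 -/
def s84 : St :=
  ⟨[(0, 2), (3, 3), (6, 6), (1, 5), (1, 4), (1, 8), (1, 1), (7, 0)],
    [(0, 0, 0), (0, 0, 0), (1, 0, 0), (2, 4, 5), (1, 3, 0), (1, 3, 0), (2, 7, 8), (2, 6, 0),
    (1, 6, 0)]⟩

/-- state of part 85 -/
def s85 : St :=
  ⟨[(0, 2), (3, 3), (6, 5), (1, 4), (1, 1), (7, 0)],
    [(0, 0, 0), (0, 0, 0), (1, 0, 0), (2, 4, 5), (1, 3, 0), (1, 3, 0), (2, 7, 0), (2, 6, 0)]⟩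

/-- state of part 86 -/
def s86 : St :=
  ⟨[(0, 2), (3, 3), (6, 5), (1, 4), (1, 0)],
    [(0, 0, 0), (0, 0, 0), (1, 0, 0), (2, 4, 5), (1, 3, 0), (1, 3, 0), (2, 0, 0)]⟩

/-- state of part 87 -/
def s87 : St :=
  ⟨[(0, 2), (3, 3), (6, 4), (8, 5), (1, 1), (7, 0)],
    [(0, 0, 0), (0, 0, 0), (1, 0, 0), (2, 4, 5), (1, 3, 0), (1, 3, 0), (1, 7, 0), (2, 6, 0),
    (2, 0, 0)]⟩

/-- state of part 88 -/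
def s88 : St :=
  ⟨[(0, 2), (3, 3), (6, 4), (8, 5), (10, 7), (11, 9), (13, 12), (1, 0)],
    [(0, 0, 0), (0, 0, 0), (1, 0, 0), (2, 4, 5), (1, 3, 0), (1, 3, 0), (1, 7, 0), (1, 6, 0),
    (1, 9, 0), (1, 8, 0), (1, 0, 0), (1, 12, 0), (1, 11, 0), (1, 0, 0)]⟩

/-- state of part 89 -/
def s89 : St :=
  ⟨[(0, 2), (3, 3), (6, 4), (8, 5), (10, 7), (11, 9), (1, 0)],
    [(0, 0, 0), (0, 0, 0), (1, 0, 0), (2, 4, 5), (1, 3, 0), (1, 3, 0), (1, 7, 0), (1, 6, 0),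
    (1, 9, 0), (1, 8, 0), (1, 0, 0), (2, 0, 0)]⟩

/-- state of part 90 -/
def s90 : St :=
  ⟨[(0, 2), (3, 3), (6, 4), (8, 5), (1, 7), (1, 0)],
    [(0, 0, 0), (0, 0, 0), (1, 0, 0), (2, 4, 5), (1, 3, 0), (1, 3, 0), (1, 7, 0), (1, 6, 0),
    (1, 0, 0)]⟩

/-- state of part 91 -/
def s91 : St :=
  ⟨[(0, 2), (3, 3), (6, 4), (1, 5), (1, 7), (1, 0)],
    [(0, 0, 0), (0, 0, 0), (1, 0, 0), (2, 4, 5), (1, 3, 0), (1, 3, 0), (1, 7, 0), (1, 6, 0)]⟩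

/-- state of part 92 -/
def s92 : St :=
  ⟨[(0, 2), (3, 3), (6, 6), (1, 4), (1, 5), (1, 8), (1, 1), (7, 0)],
    [(0, 0, 0), (0, 0, 0), (1, 0, 0), (2, 4, 5), (1, 3, 0), (1, 3, 0), (2, 7, 8), (2, 6, 0),
    (1, 6, 0)]⟩

/-- state of part 93 -/
def s93 : St :=
  ⟨[(0, 2), (3, 3), (6, 4), (1, 5), (1, 1), (7, 0)],
    [(0, 0, 0), (0, 0, 0), (1, 0, 0), (2, 4, 5), (1, 3, 0), (1, 3, 0), (2, 7, 0), (2, 6, 0)]⟩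

/-- state of part 94 -/
def s94 : St :=
  ⟨[(0, 2), (3, 3), (6, 4), (1, 5), (1, 0)],
    [(0, 0, 0), (0, 0, 0), (1, 0, 0), (2, 4, 5), (1, 3, 0), (1, 3, 0), (2, 0, 0)]⟩

/-- state of part 95 -/
def s95 : St :=
  ⟨[(0, 2), (3, 3), (1, 1), (5, 4), (1, 0)],
    [(0, 0, 0), (0, 0, 0), (1, 0, 0), (2, 4, 5), (1, 3, 0), (1, 3, 0)]⟩

/-- state of part 96 -/
def s96 : St :=
  ⟨[(0, 2), (3, 3), (1, 5), (1, 4), (1, 0)],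
    [(0, 0, 0), (0, 0, 0), (1, 0, 0), (2, 4, 5), (1, 3, 0), (1, 3, 0)]⟩

/-- state of part 97 -/
def s97 : St :=
  ⟨[(0, 2), (3, 3), (1, 4), (1, 5), (1, 0)],
    [(0, 0, 0), (0, 0, 0), (1, 0, 0), (2, 4, 5), (1, 3, 0), (1, 3, 0)]⟩

/-- state of part 98 -/
def s98 : St :=
  ⟨[(0, 2), (3, 4), (1, 0)],
    [(0, 0, 0), (0, 0, 0), (1, 0, 0), (2, 4, 0), (1, 3, 0)]⟩

/-- state of part 99 -/
def s99 : St :=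
  ⟨[(0, 2), (3, 1), (4, 0)],
    [(0, 0, 0), (0, 0, 0), (1, 0, 0), (2, 4, 0), (1, 3, 0)]⟩

/-- state of part 100 -/
def s100 : St :=
  ⟨[(0, 2), (3, 0)],
    [(0, 0, 0), (0, 0, 0), (1, 0, 0), (1, 0, 0)]⟩

/-- state of part 101 -/
def s101 : St :=
  ⟨[(0, 2), (1, 0)],
    [(0, 0, 0), (0, 0, 0), (1, 0, 0)]⟩

end Pool.Agent.Lib.MP29a61e.C
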