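import Pool.Agent.Lib.MP_29a61e_co.Sem
import Pool.Agent.Lib.MP_29a61e_co.C.C00
import Pool.Agent.Lib.MP_29a61e_co.C.C01
import Pool.Agent.Lib.MP_29a61e_co.C.C02
import Pool.Agent.Lib.MP_29a61e_co.C.C03
import Pool.Agent.Lib.MP_29a61e_co.C.C04
import Pool.Agent.Lib.MP_29a61e_co.C.C05
import Pool.Agent.Lib.MP_29a61e_co.C.C06
import Pool.Agent.Lib.MP_29a61e_co.C.C07
import Pool.Agent.Lib.MP_29a61e_co.C.C08
import Pool.Agent.Lib.MP_29a61e_co.C.C09
import Pool.Agent.Lib.MP_29a61e_co.C.C10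
import Pool.Agent.Lib.MP_29a61e_co.C.C11
import Pool.Agent.Lib.MP_29a61e_co.C.C12
import Pool.Agent.Lib.MP_29a61e_co.C.C13
import Pool.Agent.Lib.MP_29a61e_co.C.C14
import Pool.Agent.Lib.MP_29a61e_co.C.C15
import Pool.Agent.Lib.MP_29a61e_co.C.C16
import Pool.Agent.Lib.MP_29a61e_co.C.C17
import Pool.Agent.Lib.MP_29a61e_co.C.C18
import Pool.Agent.Lib.MP_29a61e_co.C.C19
import Pool.Agent.Lib.MP_29a61e_co.C.C20
import Pool.Agent.Lib.MP_29a61e_co.C.C21
import Pool.Agent.Lib.MP_29a61e_co.C.C22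
import Pool.Agent.Lib.MP_29a61e_co.C.C23
import Pool.Agent.Lib.MP_29a61e_co.C.C24
import Pool.Agent.Lib.MP_29a61e_co.C.C25
import Pool.Agent.Lib.MP_29a61e_co.C.C26
import Pool.Agent.Lib.MP_29a61e_co.C.C27
import Pool.Agent.Lib.MP_29a61e_co.C.C28
import Pool.Agent.Lib.MP_29a61e_co.C.C29
import Pool.Agent.Lib.MP_29a61e_co.C.C30
import Pool.Agent.Lib.MP_29a61e_co.C.C31

/-!
# MP_29a61e_co: all states of the certificate are winning
-/

set_option autoImplicit false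

namespace Pool.Agent.Lib.MP29a61e.C

variable (hRUN : SpecRUN)

include hRUN

theorem w0 : Wins 3 5 8 s0 := by
  refine hRUN 3 5 8 (by norm_num) [] ?_ d0 [s0] c0 s0 (List.mem_singleton.2 rfl)
  simp

theorem w1 : Wins 3 5 8 s1 := by
  refine hRUN 3 5 8 (by norm_num) [] ?_ d1 [s1] c1 s1 (List.mem_singleton.2 rfl)
  simp

theorem w2 : Wins 3 5 8 s2 := by
  refine hRUN 3 5 8 (by norm_num) [s1] ?_ d2 [s2] c2 s2 (List.mem_singleton.2 rfl)
  simp only [List.mem_cons, List.not_mem_nil, or_false, forall_eq]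
  exact w1 hRUN

theorem w3 : Wins 3 5 8 s3 := by
  refine hRUN 3 5 8 (by norm_num) [] ?_ d3 [s3] c3 s3 (List.mem_singleton.2 rfl)
  simp

theorem w4 : Wins 3 5 8 s4 := by
  refine hRUN 3 5 8 (by norm_num) [] ?_ d4 [s4] c4 s4 (List.mem_singleton.2 rfl)
  simp

theorem w5 : Wins 3 5 8 s5 := by
  refine hRUN 3 5 8 (by norm_num) [] ?_ d5 [s5] c5 s5 (List.mem_singleton.2 rfl)
  simp

theorem w6 : Wins 3 5 8 s6 := by
  refine hRUN 3 5 8 (by norm_num) [s5] ?_ d6 [s6] c6 s6 (List.mem_singleton.2 rfl)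
  simp only [List.mem_cons, List.not_mem_nil, or_false, forall_eq]
  exact w5 hRUN

theorem w7 : Wins 3 5 8 s7 := by
  refine hRUN 3 5 8 (by norm_num) [] ?_ d7 [s7] c7 s7 (List.mem_singleton.2 rfl)
  simp

theorem w8 : Wins 3 5 8 s8 := by
  refine hRUN 3 5 8 (by norm_num) [] ?_ d8 [s8] c8 s8 (List.mem_singleton.2 rfl)
  simp

theorem w9 : Wins 3 5 8 s9 := by
  refine hRUN 3 5 8 (by norm_num) [] ?_ d9 [s9] c9 s9 (List.mem_singleton.2 rfl)
  simp

theorem w10 : Wins 3 5 8 s10 := by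
  refine hRUN 3 5 8 (by norm_num) [s4] ?_ d10 [s10] c10 s10 (List.mem_singleton.2 rfl)
  simp only [List.mem_cons, List.not_mem_nil, or_false, forall_eq]
  exact w4 hRUN

theorem w11 : Wins 3 5 8 s11 := by
  refine hRUN 3 5 8 (by norm_num) [s6] ?_ d11 [s11] c11 s11 (List.mem_singleton.2 rfl)
  simp only [List.mem_cons, List.not_mem_nil, or_false, forall_eq]
  exact w6 hRUN

theorem w12 : Wins 3 5 8 s12 := by
  refine hRUN 3 5 8 (by norm_num) [s3, s2] ?_ d12 [s12] c12 s12 (List.mem_singleton.2 rfl)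
  simp only [List.mem_cons, List.not_mem_nil, or_false, forall_eq_or_imp, forall_eq]
  exact ⟨w3 hRUN, w2 hRUN⟩

theorem w13 : Wins 3 5 8 s13 := by
  refine hRUN 3 5 8 (by norm_num) [s7] ?_ d13 [s13] c13 s13 (List.mem_singleton.2 rfl)
  simp only [List.mem_cons, List.not_mem_nil, or_false, forall_eq]
  exact w7 hRUN

theorem w14 : Wins 3 5 8 s14 := by
  refine hRUN 3 5 8 (by norm_num) [] ?_ d14 [s14] c14 s14 (List.mem_singleton.2 rfl)
  simp

theorem w15 : Wins 3 5 8 s15 := by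
  refine hRUN 3 5 8 (by norm_num) [] ?_ d15 [s15] c15 s15 (List.mem_singleton.2 rfl)
  simp

theorem w16 : Wins 3 5 8 s16 := by
  refine hRUN 3 5 8 (by norm_num) [] ?_ d16 [s16] c16 s16 (List.mem_singleton.2 rfl)
  simp

theorem w17 : Wins 3 5 8 s17 := by
  refine hRUN 3 5 8 (by norm_num) [] ?_ d17 [s17] c17 s17 (List.mem_singleton.2 rfl)
  simp

theorem w18 : Wins 3 5 8 s18 := by
  refine hRUN 3 5 8 (by norm_num) [s14, s15, s16, s17] ?_ d18 [s18] c18 s18 (List.mem_singleton.2 rfl)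
  simp only [List.mem_cons, List.not_mem_nil, or_false, forall_eq_or_imp, forall_eq]
  exact ⟨w14 hRUN, w15 hRUN, w16 hRUN, w17 hRUN⟩

theorem w19 : Wins 3 5 8 s19 := by
  refine hRUN 3 5 8 (by norm_num) [] ?_ d19 [s19] c19 s19 (List.mem_singleton.2 rfl)
  simp

theorem w20 : Wins 3 5 8 s20 := by
  refine hRUN 3 5 8 (by norm_num) [] ?_ d20 [s20] c20 s20 (List.mem_singleton.2 rfl)
  simp

theorem w21 : Wins 3 5 8 s21 := by
  refine hRUN 3 5 8 (by norm_num) [] ?_ d21 [s21] c21 s21 (List.mem_singleton.2 rfl)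
  simp

theorem w22 : Wins 3 5 8 s22 := by
  refine hRUN 3 5 8 (by norm_num) [] ?_ d22 [s22] c22 s22 (List.mem_singleton.2 rfl)
  simp

theorem w23 : Wins 3 5 8 s23 := by
  refine hRUN 3 5 8 (by norm_num) [s22] ?_ d23 [s23] c23 s23 (List.mem_singleton.2 rfl)
  simp only [List.mem_cons, List.not_mem_nil, or_false, forall_eq]
  exact w22 hRUN

theorem w24 : Wins 3 5 8 s24 := by
  refine hRUN 3 5 8 (by norm_num) [] ?_ d24 [s24] c24 s24 (List.mem_singleton.2 rfl)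
  simp

theorem w25 : Wins 3 5 8 s25 := by
  refine hRUN 3 5 8 (by norm_num) [] ?_ d25 [s25] c25 s25 (List.mem_singleton.2 rfl)
  simp

theorem w26 : Wins 3 5 8 s26 := by
  refine hRUN 3 5 8 (by norm_num) [] ?_ d26 [s26] c26 s26 (List.mem_singleton.2 rfl)
  simp

theorem w27 : Wins 3 5 8 s27 := by
  refine hRUN 3 5 8 (by norm_num) [] ?_ d27 [s27] c27 s27 (List.mem_singleton.2 rfl)
  simp

theorem w28 : Wins 3 5 8 s28 := by
  refine hRUN 3 5 8 (by norm_num) [s26] ?_ d28 [s28] c28 s28 (List.mem_singleton.2 rfl)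
  simp only [List.mem_cons, List.not_mem_nil, or_false, forall_eq]
  exact w26 hRUN

theorem w29 : Wins 3 5 8 s29 := by
  refine hRUN 3 5 8 (by norm_num) [s24, s23, s25] ?_ d29 [s29] c29 s29 (List.mem_singleton.2 rfl)
  simp only [List.mem_cons, List.not_mem_nil, or_false, forall_eq_or_imp, forall_eq]
  exact ⟨w24 hRUN, w23 hRUN, w25 hRUN⟩

theorem w30 : Wins 3 5 8 s30 := by
  refine hRUN 3 5 8 (by norm_num) [s29, s28, s27] ?_ d30 [s30] c30 s30 (List.mem_singleton.2 rfl)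
  simp only [List.mem_cons, List.not_mem_nil, or_false, forall_eq_or_imp, forall_eq]
  exact ⟨w29 hRUN, w28 hRUN, w27 hRUN⟩

theorem w31 : Wins 3 5 8 s31 := by
  refine hRUN 3 5 8 (by norm_num) [] ?_ d31 [s31] c31 s31 (List.mem_singleton.2 rfl)
  simp

theorem w32 : Wins 3 5 8 s32 := by
  refine hRUN 3 5 8 (by norm_num) [s9, s0, s12, s8, s10, s11, s13] ?_ d32 [s32] c32 s32 (List.mem_singleton.2 rfl)
  simp only [List.mem_cons, List.not_mem_nil, or_false, forall_eq_or_imp, forall_eq]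
  exact ⟨w9 hRUN, w0 hRUN, w12 hRUN, w8 hRUN, w10 hRUN, w11 hRUN, w13 hRUN⟩

theorem w33 : Wins 3 5 8 s33 := by
  refine hRUN 3 5 8 (by norm_num) [] ?_ d33 [s33] c33 s33 (List.mem_singleton.2 rfl)
  simp

theorem w34 : Wins 3 5 8 s34 := by
  refine hRUN 3 5 8 (by norm_num) [] ?_ d34 [s34] c34 s34 (List.mem_singleton.2 rfl)
  simp

theorem w35 : Wins 3 5 8 s35 := by
  refine hRUN 3 5 8 (by norm_num) [] ?_ d35 [s35] c35 s35 (List.mem_singleton.2 rfl)
  simp

theorem w36 : Wins 3 5 8 s36 := by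
  refine hRUN 3 5 8 (by norm_num) [s34, s33, s35] ?_ d36 [s36] c36 s36 (List.mem_singleton.2 rfl)
  simp only [List.mem_cons, List.not_mem_nil, or_false, forall_eq_or_imp, forall_eq]
  exact ⟨w34 hRUN, w33 hRUN, w35 hRUN⟩

theorem w37 : Wins 3 5 8 s37 := by
  refine hRUN 3 5 8 (by norm_num) [] ?_ d37 [s37] c37 s37 (List.mem_singleton.2 rfl)
  simp

theorem w38 : Wins 3 5 8 s38 := by
  refine hRUN 3 5 8 (by norm_num) [] ?_ d38 [s38] c38 s38 (List.mem_singleton.2 rfl)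
  simp

theorem w39 : Wins 3 5 8 s39 := by
  refine hRUN 3 5 8 (by norm_num) [] ?_ d39 [s39] c39 s39 (List.mem_singleton.2 rfl)
  simp

theorem w40 : Wins 3 5 8 s40 := by
  refine hRUN 3 5 8 (by norm_num) [s37] ?_ d40 [s40] c40 s40 (List.mem_singleton.2 rfl)
  simp only [List.mem_cons, List.not_mem_nil, or_false, forall_eq]
  exact w37 hRUN

theorem w41 : Wins 3 5 8 s41 := by
  refine hRUN 3 5 8 (by norm_num) [] ?_ d41 [s41] c41 s41 (List.mem_singleton.2 rfl)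
  simp

theorem w42 : Wins 3 5 8 s42 := by
  refine hRUN 3 5 8 (by norm_num) [] ?_ d42 [s42] c42 s42 (List.mem_singleton.2 rfl)
  simp

theorem w43 : Wins 3 5 8 s43 := by
  refine hRUN 3 5 8 (by norm_num) [] ?_ d43 [s43] c43 s43 (List.mem_singleton.2 rfl)
  simp

theorem w44 : Wins 3 5 8 s44 := by
  refine hRUN 3 5 8 (by norm_num) [] ?_ d44 [s44] c44 s44 (List.mem_singleton.2 rfl)
  simp

theorem w45 : Wins 3 5 8 s45 := by
  refine hRUN 3 5 8 (by norm_num) [] ?_ d45 [s45] c45 s45 (List.mem_singleton.2 rfl)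
  simp

theorem w46 : Wins 3 5 8 s46 := by
  refine hRUN 3 5 8 (by norm_num) [] ?_ d46 [s46] c46 s46 (List.mem_singleton.2 rfl)
  simp

theorem w47 : Wins 3 5 8 s47 := by
  refine hRUN 3 5 8 (by norm_num) [] ?_ d47 [s47] c47 s47 (List.mem_singleton.2 rfl)
  simp

theorem w48 : Wins 3 5 8 s48 := by
  refine hRUN 3 5 8 (by norm_num) [] ?_ d48 [s48] c48 s48 (List.mem_singleton.2 rfl)
  simp

theorem w49 : Wins 3 5 8 s49 := by
  refine hRUN 3 5 8 (by norm_num) [] ?_ d49 [s49] c49 s49 (List.mem_singleton.2 rfl)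
  simp

theorem w50 : Wins 3 5 8 s50 := by
  refine hRUN 3 5 8 (by norm_num) [] ?_ d50 [s50] c50 s50 (List.mem_singleton.2 rfl)
  simp

theorem w51 : Wins 3 5 8 s51 := by
  refine hRUN 3 5 8 (by norm_num) [] ?_ d51 [s51] c51 s51 (List.mem_singleton.2 rfl)
  simp

theorem w52 : Wins 3 5 8 s52 := by
  refine hRUN 3 5 8 (by norm_num) [] ?_ d52 [s52] c52 s52 (List.mem_singleton.2 rfl)
  simp

theorem w53 : Wins 3 5 8 s53 := by
  refine hRUN 3 5 8 (by norm_num) [] ?_ d53 [s53] c53 s53 (List.mem_singleton.2 rfl)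
  simp

theorem w54 : Wins 3 5 8 s54 := by
  refine hRUN 3 5 8 (by norm_num) [s41, s42, s50, s46, s53, s38, s49, s45, s52, s39, s47, s48, s44, s51, s40, s43] ?_ d54 [s54] c54 s54 (List.mem_singleton.2 rfl)
  simp only [List.mem_cons, List.not_mem_nil, or_false, forall_eq_or_imp, forall_eq]
  exact ⟨w41 hRUN, w42 hRUN, w50 hRUN, w46 hRUN, w53 hRUN, w38 hRUN, w49 hRUN, w45 hRUN, w52 hRUN, w39 hRUN, w47 hRUN, w48 hRUN, w44 hRUN, w51 hRUN, w40 hRUN, w43 hRUN⟩

theorem w55 : Wins 3 5 8 s55 := by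
  refine hRUN 3 5 8 (by norm_num) [] ?_ d55 [s55] c55 s55 (List.mem_singleton.2 rfl)
  simp

theorem w56 : Wins 3 5 8 s56 := by
  refine hRUN 3 5 8 (by norm_num) [] ?_ d56 [s56] c56 s56 (List.mem_singleton.2 rfl)
  simp

theorem w57 : Wins 3 5 8 s57 := by
  refine hRUN 3 5 8 (by norm_num) [] ?_ d57 [s57] c57 s57 (List.mem_singleton.2 rfl)
  simp

theorem w58 : Wins 3 5 8 s58 := by
  refine hRUN 3 5 8 (by norm_num) [s55] ?_ d58 [s58] c58 s58 (List.mem_singleton.2 rfl)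
  simp only [List.mem_cons, List.not_mem_nil, or_false, forall_eq]
  exact w55 hRUN

theorem w59 : Wins 3 5 8 s59 := by
  refine hRUN 3 5 8 (by norm_num) [] ?_ d59 [s59] c59 s59 (List.mem_singleton.2 rfl)
  simp

theorem w60 : Wins 3 5 8 s60 := by
  refine hRUN 3 5 8 (by norm_num) [] ?_ d60 [s60] c60 s60 (List.mem_singleton.2 rfl)
  simp

theorem w61 : Wins 3 5 8 s61 := by
  refine hRUN 3 5 8 (by norm_num) [] ?_ d61 [s61] c61 s61 (List.mem_singleton.2 rfl)
  simp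

theorem w62 : Wins 3 5 8 s62 := by
  refine hRUN 3 5 8 (by norm_num) [] ?_ d62 [s62] c62 s62 (List.mem_singleton.2 rfl)
  simp

theorem w63 : Wins 3 5 8 s63 := by
  refine hRUN 3 5 8 (by norm_num) [] ?_ d63 [s63] c63 s63 (List.mem_singleton.2 rfl)
  simp

theorem w64 : Wins 3 5 8 s64 := by
  refine hRUN 3 5 8 (by norm_num) [] ?_ d64 [s64] c64 s64 (List.mem_singleton.2 rfl)
  simp

theorem w65 : Wins 3 5 8 s65 := by
  refine hRUN 3 5 8 (by norm_num) [] ?_ d65 [s65] c65 s65 (List.mem_singleton.2 rfl)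
  simp

theorem w66 : Wins 3 5 8 s66 := by
  refine hRUN 3 5 8 (by norm_num) [] ?_ d66 [s66] c66 s66 (List.mem_singleton.2 rfl)
  simp

theorem w67 : Wins 3 5 8 s67 := by
  refine hRUN 3 5 8 (by norm_num) [] ?_ d67 [s67] c67 s67 (List.mem_singleton.2 rfl)
  simp

theorem w68 : Wins 3 5 8 s68 := by
  refine hRUN 3 5 8 (by norm_num) [] ?_ d68 [s68] c68 s68 (List.mem_singleton.2 rfl)
  simp

theorem w69 : Wins 3 5 8 s69 := by
  refine hRUN 3 5 8 (by norm_num) [] ?_ d69 [s69] c69 s69 (List.mem_singleton.2 rfl)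
  simp

theorem w70 : Wins 3 5 8 s70 := by
  refine hRUN 3 5 8 (by norm_num) [] ?_ d70 [s70] c70 s70 (List.mem_singleton.2 rfl)
  simp

theorem w71 : Wins 3 5 8 s71 := by
  refine hRUN 3 5 8 (by norm_num) [] ?_ d71 [s71] c71 s71 (List.mem_singleton.2 rfl)
  simp

theorem w72 : Wins 3 5 8 s72 := by
  refine hRUN 3 5 8 (by norm_num) [s59, s60, s68, s64, s71, s56, s67, s63, s70, s57, s65, s66, s62, s69, s58, s61] ?_ d72 [s72] c72 s72 (List.mem_singleton.2 rfl)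
  simp only [List.mem_cons, List.not_mem_nil, or_false, forall_eq_or_imp, forall_eq]
  exact ⟨w59 hRUN, w60 hRUN, w68 hRUN, w64 hRUN, w71 hRUN, w56 hRUN, w67 hRUN, w63 hRUN, w70 hRUN, w57 hRUN, w65 hRUN, w66 hRUN, w62 hRUN, w69 hRUN, w58 hRUN, w61 hRUN⟩

theorem w73 : Wins 3 5 8 s73 := by
  refine hRUN 3 5 8 (by norm_num) [s54] ?_ d73 [s73] c73 s73 (List.mem_singleton.2 rfl)
  simp only [List.mem_cons, List.not_mem_nil, or_false, forall_eq]
  exact w54 hRUN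

theorem w74 : Wins 3 5 8 s74 := by
  refine hRUN 3 5 8 (by norm_num) [s72] ?_ d74 [s74] c74 s74 (List.mem_singleton.2 rfl)
  simp only [List.mem_cons, List.not_mem_nil, or_false, forall_eq]
  exact w72 hRUN

theorem w75 : Wins 3 5 8 s75 := by
  refine hRUN 3 5 8 (by norm_num) [] ?_ d75 [s75] c75 s75 (List.mem_singleton.2 rfl)
  simp

theorem w76 : Wins 3 5 8 s76 := by
  refine hRUN 3 5 8 (by norm_num) [] ?_ d76 [s76] c76 s76 (List.mem_singleton.2 rfl)
  simp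

theorem w77 : Wins 3 5 8 s77 := by
  refine hRUN 3 5 8 (by norm_num) [] ?_ d77 [s77] c77 s77 (List.mem_singleton.2 rfl)
  simp

theorem w78 : Wins 3 5 8 s78 := by
  refine hRUN 3 5 8 (by norm_num) [s76, s75, s77] ?_ d78 [s78] c78 s78 (List.mem_singleton.2 rfl)
  simp only [List.mem_cons, List.not_mem_nil, or_false, forall_eq_or_imp, forall_eq]
  exact ⟨w76 hRUN, w75 hRUN, w77 hRUN⟩

theorem w79 : Wins 3 5 8 s79 := by
  refine hRUN 3 5 8 (by norm_num) [] ?_ d79 [s79] c79 s79 (List.mem_singleton.2 rfl)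
  simp

theorem w80 : Wins 3 5 8 s80 := by
  refine hRUN 3 5 8 (by norm_num) [] ?_ d80 [s80] c80 s80 (List.mem_singleton.2 rfl)
  simp

theorem w81 : Wins 3 5 8 s81 := by
  refine hRUN 3 5 8 (by norm_num) [] ?_ d81 [s81] c81 s81 (List.mem_singleton.2 rfl)
  simp

theorem w82 : Wins 3 5 8 s82 := by
  refine hRUN 3 5 8 (by norm_num) [s80, s81] ?_ d82 [s82] c82 s82 (List.mem_singleton.2 rfl)
  simp only [List.mem_cons, List.not_mem_nil, or_false, forall_eq_or_imp, forall_eq]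
  exact ⟨w80 hRUN, w81 hRUN⟩

theorem w83 : Wins 3 5 8 s83 := by
  refine hRUN 3 5 8 (by norm_num) [s82] ?_ d83 [s83] c83 s83 (List.mem_singleton.2 rfl)
  simp only [List.mem_cons, List.not_mem_nil, or_false, forall_eq]
  exact w82 hRUN

theorem w84 : Wins 3 5 8 s84 := by
  refine hRUN 3 5 8 (by norm_num) [] ?_ d84 [s84] c84 s84 (List.mem_singleton.2 rfl)
  simp

theorem w85 : Wins 3 5 8 s85 := by
  refine hRUN 3 5 8 (by norm_num) [s84] ?_ d85 [s85] c85 s85 (List.mem_singleton.2 rfl)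
  simp only [List.mem_cons, List.not_mem_nil, or_false, forall_eq]
  exact w84 hRUN

theorem w86 : Wins 3 5 8 s86 := by
  refine hRUN 3 5 8 (by norm_num) [s85] ?_ d86 [s86] c86 s86 (List.mem_singleton.2 rfl)
  simp only [List.mem_cons, List.not_mem_nil, or_false, forall_eq]
  exact w85 hRUN

theorem w87 : Wins 3 5 8 s87 := by
  refine hRUN 3 5 8 (by norm_num) [] ?_ d87 [s87] c87 s87 (List.mem_singleton.2 rfl)
  simp

theorem w88 : Wins 3 5 8 s88 := by
  refine hRUN 3 5 8 (by norm_num) [] ?_ d88 [s88] c88 s88 (List.mem_singleton.2 rfl)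
  simp

theorem w89 : Wins 3 5 8 s89 := by
  refine hRUN 3 5 8 (by norm_num) [] ?_ d89 [s89] c89 s89 (List.mem_singleton.2 rfl)
  simp

theorem w90 : Wins 3 5 8 s90 := by
  refine hRUN 3 5 8 (by norm_num) [s88, s89] ?_ d90 [s90] c90 s90 (List.mem_singleton.2 rfl)
  simp only [List.mem_cons, List.not_mem_nil, or_false, forall_eq_or_imp, forall_eq]
  exact ⟨w88 hRUN, w89 hRUN⟩

theorem w91 : Wins 3 5 8 s91 := by
  refine hRUN 3 5 8 (by norm_num) [s90] ?_ d91 [s91] c91 s91 (List.mem_singleton.2 rfl)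
  simp only [List.mem_cons, List.not_mem_nil, or_false, forall_eq]
  exact w90 hRUN

theorem w92 : Wins 3 5 8 s92 := by
  refine hRUN 3 5 8 (by norm_num) [] ?_ d92 [s92] c92 s92 (List.mem_singleton.2 rfl)
  simp

theorem w93 : Wins 3 5 8 s93 := by
  refine hRUN 3 5 8 (by norm_num) [s92] ?_ d93 [s93] c93 s93 (List.mem_singleton.2 rfl)
  simp only [List.mem_cons, List.not_mem_nil, or_false, forall_eq]
  exact w92 hRUN

theorem w94 : Wins 3 5 8 s94 := by
  refine hRUN 3 5 8 (by norm_num) [s93] ?_ d94 [s94] c94 s94 (List.mem_singleton.2 rfl)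
  simp only [List.mem_cons, List.not_mem_nil, or_false, forall_eq]
  exact w93 hRUN

theorem w95 : Wins 3 5 8 s95 := by
  refine hRUN 3 5 8 (by norm_num) [s78] ?_ d95 [s95] c95 s95 (List.mem_singleton.2 rfl)
  simp only [List.mem_cons, List.not_mem_nil, or_false, forall_eq]
  exact w78 hRUN

theorem w96 : Wins 3 5 8 s96 := by
  refine hRUN 3 5 8 (by norm_num) [s79, s83, s86] ?_ d96 [s96] c96 s96 (List.mem_singleton.2 rfl)
  simp only [List.mem_cons, List.not_mem_nil, or_false, forall_eq_or_imp, forall_eq]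
  exact ⟨w79 hRUN, w83 hRUN, w86 hRUN⟩

theorem w97 : Wins 3 5 8 s97 := by
  refine hRUN 3 5 8 (by norm_num) [s87, s91, s94] ?_ d97 [s97] c97 s97 (List.mem_singleton.2 rfl)
  simp only [List.mem_cons, List.not_mem_nil, or_false, forall_eq_or_imp, forall_eq]
  exact ⟨w87 hRUN, w91 hRUN, w94 hRUN⟩

theorem w98 : Wins 3 5 8 s98 := by
  refine hRUN 3 5 8 (by norm_num) [s95, s96, s97] ?_ d98 [s98] c98 s98 (List.mem_singleton.2 rfl)
  simp only [List.mem_cons, List.not_mem_nil, or_false, forall_eq_or_imp, forall_eq]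
  exact ⟨w95 hRUN, w96 hRUN, w97 hRUN⟩

theorem w99 : Wins 3 5 8 s99 := by
  refine hRUN 3 5 8 (by norm_num) [s36] ?_ d99 [s99] c99 s99 (List.mem_singleton.2 rfl)
  simp only [List.mem_cons, List.not_mem_nil, or_false, forall_eq]
  exact w36 hRUN

theorem w100 : Wins 3 5 8 s100 := by
  refine hRUN 3 5 8 (by norm_num) [s32, s18, s19, s20, s31, s21, s30] ?_ d100 [s100] c100 s100 (List.mem_singleton.2 rfl)
  simp only [List.mem_cons, List.not_mem_nil, or_false, forall_eq_or_imp, forall_eq]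
  exact ⟨w32 hRUN, w18 hRUN, w19 hRUN, w20 hRUN, w31 hRUN, w21 hRUN, w30 hRUN⟩

theorem w101 : Wins 3 5 8 s101 := by
  refine hRUN 3 5 8 (by norm_num) [s100, s99, s73, s74, s98] ?_ d101 [s101] c101 s101 (List.mem_singleton.2 rfl)
  simp only [List.mem_cons, List.not_mem_nil, or_false, forall_eq_or_imp, forall_eq]
  exact ⟨w100 hRUN, w99 hRUN, w73 hRUN, w74 hRUN, w98 hRUN⟩

theorem wroot : Wins 3 5 8 root := w101 hRUN

end Pool.Agent.Lib.MP29a61e.C
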